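import Pool.Agent.Work.MP_db9399_iv_helper38.RXD

/-!
# MP_db9399, all scales, block RGX, part TST (helper44)

Number, size and total weight of the tests for the choice of the covering vertices.
-/

set_option autoImplicit false

namespace Pool.Agent.Work.MP_db9399_rg_helper44

open Finset Classical
open Pool.Agent.Work.MP_db9399_all (nb)
open Pool.Agent.Work.MP_db9399_da (Pcs Ty pV sV)
open Pool.Agent.Work.MP_db9399_xf
open Pool.Agent.Work.MP_db9399_iv_helper38 hiding mem_nb mem_pV mem_sV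
open Pool.Agent.Work.MP_db9399_rg_helper42

universe u

section
variable {V : Type u} {N J : ℕ} [Fintype V]
variable {C g z θk θ' η a : ℝ} {M : ℕ} {S : Fin J → Scl} {G : SimpleGraph V} {d : ℕ}
  {X : XD V N J}

omit [Fintype V] in
lemma not_Lk_B {v : V} (h : InT X Ty.B v) : ¬ Lk X v := by
  intro h'
  have h1 := h'.1.2
  rw [h.2] at h1
  exact absurd h1 (by decide)

omit [Fintype V] in
lemma Te_xt {v w : V} (h : Te G X v w) : (xt G X).Adj v w :=
  ⟨h.1, fun h' => not_Lk_B h.2.1 h'.1⟩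

/-- one colour: at most one edge at every vertex -/
lemma nT_one {t : V → V → ℕ} (hinj : ∀ v, Set.InjOn (t v) (nb (xt G X) v : Set V)) (b e : ℕ)
    (q q' : Finset V) : nT G X t b q q' {e} ≤ q.card := by
  unfold nT
  refine card_le_card_of_injOn Prod.fst ?_ ?_
  · intro p hp
    have hp' := mem_filter.1 (mem_coe.1 hp)
    exact mem_coe.2 (mem_product.1 hp'.1).1
  · intro p hp p' hp' hpp
    have h1 := (mem_filter.1 (mem_coe.1 hp)).2
    have h2 := (mem_filter.1 (mem_coe.1 hp')).2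
    have e1 := mem_singleton.1 h1.2.2.2
    have e2 := mem_singleton.1 h2.2.2.2
    have m1 : p.2 ∈ (nb (xt G X) p.1 : Set V) := mem_coe.2 (mem_nb.2 (Te_xt h1.1))
    have m2 : p'.2 ∈ (nb (xt G X) p.1 : Set V) := by
      have := mem_nb.2 (Te_xt h2.1)
      rw [← hpp] at this
      exact mem_coe.2 this
    have e3 : p.2 = p'.2 := hinj p.1 m1 m2 (by rw [e1, hpp, e2])
    exact Prod.ext hpp e3

/-- different colours -/
lemma nT_sum {t : V → V → ℕ} (b : ℕ) (q q' : Finset V) (w : V) (L : Finset V)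
    (hL : Set.InjOn (t w) (L : Set V)) (D : Finset ℕ) (hD : ∀ y ∈ L, t w y ∈ D) :
    ∑ y ∈ L, nT G X t b q q' {t w y} ≤ nT G X t b q q' D := by
  have h1 : ∑ y ∈ L, nT G X t b q q' {t w y} = ∑ e ∈ L.image (t w), nT G X t b q q' {e} :=
    (sum_image (f := fun e => nT G X t b q q' {e})
      (fun x hx y hy h => hL (mem_coe.2 hx) (mem_coe.2 hy) h)).symm
  rw [h1]
  unfold nT
  rw [← card_biUnion]
  · refine card_le_card fun p hp => ?_
    obtain ⟨e, he, hp'⟩ := mem_biUnion.1 hp
    obtain ⟨y, hy, rfl⟩ := mem_image.1 he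
    have h2 := mem_filter.1 hp'
    refine mem_filter.2 ⟨h2.1, h2.2.1, h2.2.2.1, h2.2.2.2.1, ?_⟩
    rw [mem_singleton.1 h2.2.2.2.2]
    exact hD y hy
  · intro e _ e' _ hee
    rw [Function.onFun, disjoint_left]
    intro p hp hp'
    have h1 := mem_singleton.1 (mem_filter.1 hp).2.2.2.2
    have h2 := mem_singleton.1 (mem_filter.1 hp').2.2.2.2
    exact hee (h1.symm.trans h2)

/-- pieces of type B -/
lemma piece_cl (D : PcD C g z θk θ' η a M S G d X) {n : Fin N} (hB : X.P.ty n = Ty.B) :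
    ∃ k, ∀ v ∈ pV X.P n, X.cq v = some k := by
  obtain ⟨v, hv⟩ := D.bN n hB
  have hv' := mem_pV.1 hv
  obtain ⟨k, hk⟩ := Option.ne_none_iff_exists'.1 (D.cln v hv'.1)
  refine ⟨k, fun w hw => ?_⟩
  have hw' := mem_pV.1 hw
  rw [D.clp w v hw'.1 hv'.1 (by rw [hw'.2, hv'.2]), hk]

lemma pV_card (D : PcD C g z θk θ' η a M S G d X) {n : Fin N} (hB : X.P.ty n = Ty.B) :
    ((pV X.P n).card : ℝ) ≤ C * d := by
  obtain ⟨k, hk⟩ := piece_cl D hB
  refine le_trans ?_ (D.clc k)
  have : pV X.P n ⊆ univ.filter (fun v => X.cq v = some k) := fun v hv =>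
    mem_filter.2 ⟨mem_univ _, hk v hv⟩
  exact_mod_cast card_le_card this

omit [Fintype V] in
lemma SmC_symm {n m : Fin N} (h : SmC X n m) : SmC X m n := by
  obtain ⟨v, w, hv, hw, h1, h2, h3⟩ := h
  exact ⟨w, v, hw, hv, h2, h1, h3.symm⟩

/-- few pieces in the cluster -/
lemma SmC_card (D : PcD C g z θk θ' η a M S G d X) {n : Fin N} (hB : X.P.ty n = Ty.B) :
    (univ.filter (fun m => SmC X n m)).card ≤ M := by
  obtain ⟨k, hk⟩ := piece_cl D hB
  refine le_trans (card_le_card ?_) (D.npc k)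
  intro m hm
  obtain ⟨v, w, hv, hw, h1, h2, h3⟩ := (mem_filter.1 hm).2
  refine mem_filter.2 ⟨mem_univ _, w, hw, h2, ?_⟩
  rw [← h3]
  exact hk v (mem_pV.2 ⟨hv, h1⟩)

lemma SmC_sc (D : PcD C g z θk θ' η a M S G d X) {n m : Fin N} (h : SmC X n m) :
    X.sc n = X.sc m := by
  obtain ⟨v, w, hv, hw, h1, h2, h3⟩ := h
  have := D.scq v w hv hw h3
  rwa [h1, h2] at this

lemma Cov_V0 {w : V} (h : Cov G X d w) : w ∈ X.P.V0 := by
  obtain ⟨n, β, h⟩ := h
  exact h.1

/-- pieces with a neighbour of `w` -/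
lemma pieces_card (D : PcD C g z θk θ' η a M S G d X) (w : V) :
    (univ.filter (fun n : Fin N => (nb G w ∩ pV X.P n).card ≠ 0)).card ≤ d := by
  have h1 := g5 D w (univ.filter (fun n : Fin N => (nb G w ∩ pV X.P n).card ≠ 0))
  have h2 : ((univ.filter (fun n : Fin N => (nb G w ∩ pV X.P n).card ≠ 0)).card : ℝ) ≤
      ∑ n ∈ univ.filter (fun n : Fin N => (nb G w ∩ pV X.P n).card ≠ 0),
        ((nb G w ∩ pV X.P n).card : ℝ) := by
    rw [card_eq_sum_ones, Nat.cast_sum]
    refine sum_le_sum fun n hn => ?_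
    have := (mem_filter.1 hn).2
    have h3 : 1 ≤ (nb G w ∩ pV X.P n).card := Nat.one_le_iff_ne_zero.2 this
    exact_mod_cast h3
  exact_mod_cast h2.trans h1

/-- (1) number of the tests -/
lemma tst_card (D : PcD C g z θk θ' η a M S G d X) (hζ : ∀ s, (S s).ζ ≤ 1 / 1000)
    (hd : 64 * M + 3 ≤ d) (x : ℕ) (t : V → V → ℕ) (L : V → Finset V) {w : V}
    (hw : Cov G X d w) :
    (univ.filter fun q : Tst N d => ∃ y ∈ L w, wt x G d X t q w y ≠ 0).card ≤ d ^ 3 := by
  obtain ⟨n0, β0, h0⟩ := hw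
  have hB0 := h0.2.1
  set I := univ.filter (fun n : Fin N => (nb G w ∩ pV X.P n).card ≠ 0) with hI
  set K := univ.filter (fun m => SmC X n0 m) with hK
  set A : Finset (Fin N × Fin (d + 2)) := I ×ˢ univ with hA
  set B : Finset (Fin N × Fin N × Bool × Bool × Bool × Bool × Fin (d + 3)) :=
    ({n0} ×ˢ (K ×ˢ univ)) ∪ (K ×ˢ ({n0} ×ˢ univ)) with hBdef
  have hsub : (univ.filter fun q : Tst N d => ∃ y ∈ L w, wt x G d X t q w y ≠ 0) ⊆
      A.disjSum B := by
    intro q hq
    obtain ⟨y, hy, hne⟩ := (mem_filter.1 hq).2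
    rcases q with ⟨n, b⟩ | ⟨n, m, β, β', i, i', b⟩
    · rw [inl_mem_disjSum, hA, mem_product]
      refine ⟨?_, mem_univ _⟩
      rw [hI, mem_filter]
      refine ⟨mem_univ _, ?_⟩
      intro h
      apply hne
      show wt1 x G X t n b w y = 0
      unfold wt1
      rw [h]
      split_ifs <;> rfl
    · rw [inr_mem_disjSum, hBdef, mem_union]
      have hcond : X.P.ty n = Ty.B ∧ X.P.ty m = Ty.B ∧ SmC X n m ∧
          ((∃ γ, Cvr G X d n γ w) ∨ ∃ γ, Cvr G X d m γ w) := by
        by_contra hc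
        apply hne
        show wt2 G d X t n m β β' i i' b w y = 0
        unfold wt2
        rw [if_neg hc]
      obtain ⟨hn, hm, hs, hcv⟩ := hcond
      have hd1 : 1 ≤ d := by omega
      rcases hcv with ⟨γ, hγ⟩ | ⟨γ, hγ⟩
      · left
        have e := (g6c D hd1 (hζ _) (hζ _) hγ h0).1
        subst e
        rw [mem_product, mem_product]
        refine ⟨mem_singleton.2 rfl, ?_, mem_univ _⟩
        rw [hK, mem_filter]
        exact ⟨mem_univ _, hs⟩
      · right
        have e := (g6c D hd1 (hζ _) (hζ _) hγ h0).1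
        subst e
        rw [mem_product, mem_product]
        refine ⟨?_, mem_singleton.2 rfl, mem_univ _⟩
        rw [hK, mem_filter]
        exact ⟨mem_univ _, SmC_symm hs⟩
  refine (card_le_card hsub).trans ?_
  rw [card_disjSum]
  have hIc : I.card ≤ d := pieces_card D w
  have hKc : K.card ≤ M := SmC_card D hB0
  have hAc : A.card ≤ d * (d + 2) := by
    rw [hA, card_product, card_univ, Fintype.card_fin]
    exact Nat.mul_le_mul_right _ hIc
  have hU : (univ : Finset (Bool × Bool × Bool × Bool × Fin (d + 3))).card = 16 * (d + 3) := by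
    rw [card_univ]
    simp only [Fintype.card_prod, Fintype.card_bool, Fintype.card_fin]
    ring
  have hBc : B.card ≤ 2 * (M * (16 * (d + 3))) := by
    rw [hBdef]
    refine (card_union_le _ _).trans ?_
    rw [card_product, card_product, card_product, card_product, card_singleton, hU, one_mul,
      one_mul]
    have := Nat.mul_le_mul_right (16 * (d + 3)) hKc
    omega
  have h3 : d * (d + 2) + 2 * (M * (16 * (d + 3))) ≤ d ^ 3 := by
    have h4 : 2 * d + 64 * M ≤ d * d := by nlinarith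
    have h5 : (2 * d + 64 * M) * d ≤ d * d * d := Nat.mul_le_mul_right _ h4
    have h6 : d * (d + 2) ≤ 2 * d * d := by nlinarith
    have h7 : 2 * (M * (16 * (d + 3))) ≤ 64 * M * d := by nlinarith
    calc d * (d + 2) + 2 * (M * (16 * (d + 3))) ≤ 2 * d * d + 64 * M * d := Nat.add_le_add h6 h7
      _ = (2 * d + 64 * M) * d := by ring
      _ ≤ d * d * d := h5
      _ = d ^ 3 := by ring
  omega

/-- (3) -/
lemma sum1 (D : PcD C g z θk θ' η a M S G d X) {t : V → V → ℕ}
    (hinj : ∀ v, Set.InjOn (t v) (nb (xt G X) v : Set V)) (x : ℕ) (n : Fin N) (b : ℕ)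
    (L : V → Finset V) (hL : ∀ w, L w ⊆ nb G w) :
    ((∑ w ∈ univ.filter (Cov G X d), ∑ y ∈ L w, wt1 x G X t n b w y : ℕ) : ℝ) ≤
      a * (d : ℝ) ^ 2 := by
  have h1 : ∀ w ∈ univ.filter (Cov G X d), ∑ y ∈ L w, wt1 x G X t n b w y ≤
      if ∀ v ∈ pV X.P n, X.cq w ≠ X.cq v then (nb G w ∩ pV X.P n).card else 0 := by
    intro w hw
    have hV := Cov_V0 (mem_filter.1 hw).2
    split_ifs with hc
    · have h2 : ∀ y ∈ L w, wt1 x G X t n b w y ≤
          if t w y = b then (nb G w ∩ pV X.P n).card else 0 := by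
        intro y _
        unfold wt1
        split_ifs with h3 h4 h4
        · exact le_rfl
        · exact absurd h3.2.2 h4
        · exact Nat.zero_le _
        · exact le_rfl
      refine (sum_le_sum h2).trans ?_
      rw [← sum_filter, sum_const, smul_eq_mul]
      have h3 : ((L w).filter (fun y => t w y = b)).card ≤ 1 := by
        rw [card_le_one]
        intro y hy y' hy'
        rw [mem_filter] at hy hy'
        have m1 : y ∈ (nb (xt G X) w : Set V) := by
          rw [g7V0 hV]; exact mem_coe.2 (hL w hy.1)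
        have m2 : y' ∈ (nb (xt G X) w : Set V) := by
          rw [g7V0 hV]; exact mem_coe.2 (hL w hy'.1)
        exact hinj w m1 m2 (hy.2.trans hy'.2.symm)
      calc _ ≤ 1 * (nb G w ∩ pV X.P n).card := Nat.mul_le_mul_right _ h3
        _ = _ := one_mul _
    · refine le_of_eq (sum_eq_zero fun y _ => ?_)
      unfold wt1
      rw [if_neg (fun h => hc h.1)]
  have h2 := sum_le_sum h1
  rw [← sum_filter] at h2
  have h3 : ∑ w ∈ (univ.filter (Cov G X d)).filter (fun w => ∀ v ∈ pV X.P n, X.cq w ≠ X.cq v),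
      ((nb G w ∩ pV X.P n).card : ℝ) ≤ a * (d : ℝ) ^ 2 :=
    g3s D n (fun w hw => (mem_filter.1 hw).2)
  refine le_trans ?_ h3
  exact_mod_cast h2

/-- (4) -/
lemma sum2 (D : PcD C g z θk θ' η a M S G d X) (hd : 1 ≤ d) (hζ : ∀ s, (S s).ζ ≤ 1 / 1000)
    (hθ : ∀ s, 0 < (S s).θ) {t : V → V → ℕ}
    (hlt : ∀ v w, (xt G X).Adj v w → t v w < d + 2)
    (hinj : ∀ v, Set.InjOn (t v) (nb (xt G X) v : Set V))
    (n m : Fin N) (β β' i i' : Bool) (b : ℕ) (L : V → Finset V) (hL : ∀ w, L w ⊆ nb G w) :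
    ((∑ w ∈ univ.filter (Cov G X d), ∑ y ∈ L w, wt2 G d X t n m β β' i i' b w y : ℕ) : ℝ) ≤
      4 * (S (X.sc n)).θ * d * nT G X t b (qV X n β i) (qV X m β' i') (range (d + 2)) := by
  have hd0 : (0 : ℝ) ≤ d := Nat.cast_nonneg _
  by_cases hc : X.P.ty n = Ty.B ∧ X.P.ty m = Ty.B ∧ SmC X n m
  · obtain ⟨hn, hm, hs⟩ := hc
    have h1 : ∀ w ∈ univ.filter (Cov G X d), ∑ y ∈ L w, wt2 G d X t n m β β' i i' b w y ≤
        if (∃ γ, Cvr G X d n γ w) ∨ ∃ γ, Cvr G X d m γ w then
          nT G X t b (qV X n β i) (qV X m β' i') (range (d + 2)) else 0 := by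
      intro w hw
      have hV := Cov_V0 (mem_filter.1 hw).2
      split_ifs with hcv
      · have h2 : ∀ y ∈ L w, wt2 G d X t n m β β' i i' b w y ≤
            nT G X t b (qV X n β i) (qV X m β' i') {t w y} := by
          intro y _
          unfold wt2
          split_ifs
          · exact le_rfl
          · exact Nat.zero_le _
        refine (sum_le_sum h2).trans ?_
        have hLx : ∀ y ∈ L w, y ∈ nb (xt G X) w := fun y hy => by
          rw [g7V0 hV]; exact hL w hy
        refine nT_sum b _ _ w (L w) ?_ _ ?_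
        · intro y hy y' hy' h
          exact hinj w (mem_coe.2 (hLx y (mem_coe.1 hy))) (mem_coe.2 (hLx y' (mem_coe.1 hy'))) h
        · intro y hy
          exact mem_range.2 (hlt w y (mem_nb.1 (hLx y hy)))
      · refine le_of_eq (sum_eq_zero fun y _ => ?_)
        unfold wt2
        rw [if_neg (fun h => hcv h.2.2.2)]
    have h2 := sum_le_sum h1
    rw [← sum_filter, sum_const, smul_eq_mul] at h2
    set T := nT G X t b (qV X n β i) (qV X m β' i') (range (d + 2)) with hT
    have h3 : (((univ.filter (Cov G X d)).filter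
        (fun w => (∃ γ, Cvr G X d n γ w) ∨ ∃ γ, Cvr G X d m γ w)).card : ℝ) ≤
        4 * (S (X.sc n)).θ * d := by
      have e1 : (univ.filter (Cov G X d)).filter
          (fun w => (∃ γ, Cvr G X d n γ w) ∨ ∃ γ, Cvr G X d m γ w) ⊆
          univ.filter (fun w => ∃ γ, Cvr G X d n γ w) ∪
            univ.filter (fun w => ∃ γ, Cvr G X d m γ w) := by
        intro w hw
        rcases (mem_filter.1 hw).2 with h | h
        · exact mem_union_left _ (mem_filter.2 ⟨mem_univ _, h⟩)
        · exact mem_union_right _ (mem_filter.2 ⟨mem_univ _, h⟩)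
      have e2 : (((univ.filter (Cov G X d)).filter
          (fun w => (∃ γ, Cvr G X d n γ w) ∨ ∃ γ, Cvr G X d m γ w)).card : ℝ) ≤
          ((univ.filter (fun w => ∃ γ, Cvr G X d n γ w)).card : ℝ) +
            ((univ.filter (fun w => ∃ γ, Cvr G X d m γ w)).card : ℝ) := by
        exact_mod_cast (card_le_card e1).trans (card_union_le _ _)
      have e3 := g6d D hd (hζ (X.sc n)) (hθ (X.sc n)).le
      have e4 := g6d D hd (hζ (X.sc m)) (hθ (X.sc m)).le
      rw [← SmC_sc D hs] at e4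
      linarith
    have h4 : ((∑ w ∈ univ.filter (Cov G X d), ∑ y ∈ L w,
        wt2 G d X t n m β β' i i' b w y : ℕ) : ℝ) ≤
        (((univ.filter (Cov G X d)).filter
          (fun w => (∃ γ, Cvr G X d n γ w) ∨ ∃ γ, Cvr G X d m γ w)).card : ℝ) * T := by
      exact_mod_cast h2
    exact h4.trans (mul_le_mul_of_nonneg_right h3 (Nat.cast_nonneg _))
  · have h1 : ∑ w ∈ univ.filter (Cov G X d), ∑ y ∈ L w,
        wt2 G d X t n m β β' i i' b w y = 0 := by
      refine sum_eq_zero fun w _ => sum_eq_zero fun y _ => ?_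
      unfold wt2
      rw [if_neg (fun h => hc ⟨h.1, h.2.1, h.2.2.1⟩)]
    rw [h1, Nat.cast_zero]
    have := (hθ (X.sc n)).le
    positivity

end

theorem stmt_TST : Stmt_TST.{u} := by
  intro πk C g z τ e M J S c' hC
  obtain ⟨-, -, hC1, -, -, -, -, -, -, -, hS⟩ := hC
  refine ⟨64 * M + 3, ?_⟩
  intro V _ N G d X A t c m m2 pr θk θ' η hd H L hL
  have D := H.pc.toPcD
  have hζ : ∀ s, (S s).ζ ≤ 1 / 1000 := fun s => (hS s).ζ1.trans (by norm_num)
  have hθ : ∀ s, 0 < (S s).θ := fun s => (hS s).θp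
  have hinj := H.pre.toTcX.inj
  have hlt := H.pre.toTcX.lt
  have hd1 : 1 ≤ d := by omega
  refine ⟨?_, ?_, ?_, ?_, ?_⟩
  · intro w hw
    have := tst_card D hζ hd (x0 c' d) t L hw
    exact_mod_cast this
  · intro n b w y _ _
    unfold wt1
    split_ifs with h
    · exact h.2.1.le
    · exact Nat.zero_le _
  · intro n k β β' i i' b w y _ _
    unfold wt2
    split_ifs with h
    · have h1 := nT_one (G := G) (X := X) hinj b (t w y) (qV X n β i) (qV X k β' i')
      have h2 : (qV X n β i).card ≤ (pV X.P n).card := by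
        refine card_le_card fun v hv => ?_
        exact sV_sub_pV _ _ _ (mem_filter.1 hv).1
      have h3 := pV_card D h.1
      have h4 : (nT G X t b (qV X n β i) (qV X k β' i') {t w y} : ℝ) ≤ ((pV X.P n).card : ℝ) := by
        exact_mod_cast h1.trans h2
      exact h4.trans h3
    · rw [Nat.cast_zero]
      have : (0 : ℝ) ≤ C := by linarith
      positivity
  · intro n b
    exact sum1 D hinj (x0 c' d) n b L hL
  · intro n k β β' i i' b
    exact sum2 D hd1 hζ hθ hlt hinj n k β β' i i' b L hL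

end Pool.Agent.Work.MP_db9399_rg_helper44
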